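import Pool.Agent.H671.IK.All

set_option autoImplicit false

namespace Pool.Agent.Results.MP_008206_co.NearExact

open Finset

/-- `A` is strongly `Q`-forcing: every one entry `(x, y)` of `A` lies in a submatrix of `A`, with
rows `r 0 < r 1 < ...` and columns `c 0 < c 1 < ...`, that is equal to `Q` (`true` is the entry
one, `false` the entry zero). -/
def Forcing {k n : ℕ} (Q : Fin k → Fin k → Bool) (A : Fin n → Fin n → Bool) : Prop :=
  ∀ x y, A x y = true → ∃ r c : Fin k → Fin n, StrictMono r ∧ StrictMono c ∧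
    (∀ i j, A (r i) (c j) = Q i j) ∧ (∃ i, r i = x) ∧ (∃ j, c j = y)

/-- The number of ones of `A`. -/
def count {n : ℕ} (A : Fin n → Fin n → Bool) : ℕ :=
  (univ.filter fun p : Fin n × Fin n => A p.1 p.2 = true).card

/-- The permutation matrix of `σ`. -/
def permMat {k : ℕ} (σ : Equiv.Perm (Fin k)) : Fin k → Fin k → Bool := fun i j => decide (σ i = j)

/-- The identity matrix `I_k`. -/
def idMat (k : ℕ) : Fin k → Fin k → Bool := fun i j => decide (i = j)

/-- The conjectured value `n² - (2k - 3) n + k² - 2k` of `M(n, I_k)`. -/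
def value (k n : ℕ) : ℤ := (n : ℤ) ^ 2 - (2 * k - 3) * n + (k ^ 2 - 2 * k)

/-- For `2 ≤ k ≤ n ≤ k + 5`: the maximum `M(n, I_k)` of the number of ones of a strongly
`I_k`-forcing `n × n` matrix is the conjectured value; and this is an upper bound for every `k × k`
permutation matrix in place of `I_k`. -/
theorem result (k n : ℕ) (hk : 2 ≤ k) (hn : k ≤ n) (hnk : n ≤ k + 5) :
    IsGreatest {m : ℤ | ∃ A : Fin n → Fin n → Bool, Forcing (idMat k) A ∧ (count A : ℤ) = m}
      (value k n) ∧
    ∀ (σ : Equiv.Perm (Fin k)) (A : Fin n → Fin n → Bool), Forcing (permMat σ) A →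
      (count A : ℤ) ≤ value k n := by
  have h2 : ∀ (σ : Equiv.Perm (Fin k)) (A : Fin n → Fin n → Bool), Forcing (permMat σ) A →
      (count A : ℤ) ≤ value k n := fun σ A hA =>
    (Pool.Agent.H671.IK.upper hk hn σ A hA).2.1 hnk
  refine ⟨⟨⟨Pool.Agent.V11165.QF.S k n, Pool.Agent.V11165.QF.S_forcing hk hn,
    Pool.Agent.V11165.QF.S_count hk hn⟩, ?_⟩, h2⟩
  rintro m ⟨A, hA, rfl⟩
  exact h2 (Equiv.refl _) A hA

end Pool.Agent.Results.MP_008206_co.NearExact
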